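import Pool.Agent.helper58.LT.RY
import Pool.Agent.helper33.LT.PJ
import Pool.Agent.helper33.LT.DI

set_option autoImplicit false

/-!
# LT project (MP_16912e_nt), module NA: the number of ideals `a`
-/

namespace Pool.Agent.helper28.LT

open Finset NumberField Pool.Agent.helper3.FT Pool.Agent.helper47.RA

variable {K : Type} [Field K] [NumberField K] {Q : QF K} {κ s f : ℕ}

theorem NA_rad_squarefree (f : ℕ) : Squarefree (rad f) := by
  unfold rad
  rw [Nat.squarefree_iff_prime_squarefree]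
  intro p hp hpp
  have h1 : (∏ q ∈ f.primeFactors, q) ≠ 0 :=
    Finset.prod_ne_zero_iff.2 fun q hq => (Nat.prime_of_mem_primeFactors hq).ne_zero
  have h2 : (p * p) ∣ ∏ q ∈ f.primeFactors, q := hpp
  have hpm : p ∈ f.primeFactors := by
    have h3 : p ∣ ∏ q ∈ f.primeFactors, q := (dvd_mul_right p p).trans h2
    obtain ⟨q, hq, hpq⟩ := (Prime.dvd_finsetProd_iff hp.prime _).1 h3
    have := (Nat.prime_dvd_prime_iff_eq hp (Nat.prime_of_mem_primeFactors hq)).1 hpq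
    rwa [this]
  rw [← Finset.mul_prod_erase _ _ hpm] at h2
  have h4 := Nat.dvd_of_mul_dvd_mul_left hp.pos h2
  obtain ⟨q, hq, hpq⟩ := (Prime.dvd_finsetProd_iff hp.prime _).1 h4
  have h5 := (Nat.prime_dvd_prime_iff_eq hp
    (Nat.prime_of_mem_primeFactors (Finset.mem_of_mem_erase hq))).1 hpq
  exact (Finset.ne_of_mem_erase hq) h5.symm

theorem NA_rad_dvd (f : ℕ) : rad f ∣ f := Nat.prod_primeFactors_dvd f

theorem NA_rad_primeFactors (f : ℕ) : (rad f).primeFactors = f.primeFactors :=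
  Nat.primeFactors_prod_primeFactors f

theorem NA_rad_pos (f : ℕ) : 0 < rad f :=
  Finset.prod_pos fun _ hq => (Nat.prime_of_mem_primeFactors hq).pos

/-- the size of the discriminant -/
theorem NA_sqrt (E : El Q κ s f) (hneg : Q.D < 0) :
    29 * (κ : ℝ) ^ 2 * (s : ℝ) ^ 3 ≤ f * √(-Q.D : ℝ) := by
  have hDpos : (0 : ℝ) < -Q.D := by
    have : ((Q.D : ℤ) : ℝ) < 0 := by exact_mod_cast hneg
    linarith
  have h1 : (859 * (κ : ℝ) ^ 4 * (s : ℝ) ^ 6) ≤ -((f : ℝ) ^ 2 * Q.D) := by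
    exact_mod_cast E.tup.D1
  have h2 : (f : ℝ) * √(-Q.D : ℝ) = √((f : ℝ) ^ 2 * (-Q.D : ℝ)) := by
    rw [Real.sqrt_mul (by positivity), Real.sqrt_sq (by positivity)]
  rw [h2]
  apply Real.le_sqrt_of_sq_le
  have h3 : (0 : ℝ) ≤ (κ : ℝ) ^ 4 * (s : ℝ) ^ 6 := by positivity
  nlinarith

/-- NA (from CM1, RY1-3, PJ, DI): the number of ideals `a` -/
theorem Part.num_a (hneg : Q.D < 0) (hs : 1 ≤ s) (hκ : 1 ≤ κ) (hf : 1 ≤ f) {ι : Type} [Fintype ι]
    (p : Part Q κ s f ι) (fb fg : ℕ) (h1 : f = fb * fg) (h2 : Nat.Coprime fg p.Zb) :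
    ∃ (n : ℕ) (φ : ι → Fin n),
      (n : ℝ) ≤ 6 ^ fg.primeFactors.card * (2 + 36 * f / (p.Zb * rad fg)) ∧
      ∀ i j, φ i = φ j → (p.F i).a = (p.F j).a := by
  classical
  rcases isEmpty_or_nonempty ι with hι | ⟨⟨i₀⟩⟩
  · refine ⟨0, fun i => (hι.false i).elim, ?_, fun i => (hι.false i).elim⟩
    have : (0 : ℝ) ≤ 6 ^ fg.primeFactors.card * (2 + 36 * f / (p.Zb * rad fg)) := by positivity
    simpa using this
  have hx := fun i => compare hneg (p.E i₀) (p.E i) (p.F i₀) (p.F i) (by rw [p.hZb, p.hZb])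
    (by rw [p.hA, p.hA]) (by rw [p.hC, p.hC])
  choose x hx5 hxs hxN using hx
  have hZb0 : p.Zb ≠ 0 := by
    rw [← p.hZb i₀]
    exact CM_Zb_ne _
  have hfgf : fg ∣ f := ⟨fb, by rw [h1, mul_comm]⟩
  have hYx : ∀ i, ((rad fg : ℕ) : ℤ) ∣ Q.Y ((x i) ^ 5) := by
    intro i
    have h3 := fg_dvd (p.E i₀) (p.E i) (p.F i₀) (x i) fg hfgf (by rw [p.hZb]; exact h2) (hx5 i)
    have h4 : ((rad fg : ℕ) : ℤ) ∣ (fg : ℤ) := by exact_mod_cast NA_rad_dvd fg
    exact h4.trans h3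
  obtain ⟨c, hc⟩ := proj_classes Q (rad fg) (NA_rad_squarefree fg) x hYx
  have hr0 : (0 : ℝ) < (rad fg : ℕ) := by exact_mod_cast NA_rad_pos fg
  have hZbR : (0 : ℝ) < (p.Zb : ℝ) := by exact_mod_cast Nat.pos_of_ne_zero hZb0
  have hZgR : (0 : ℝ) < ((p.F i₀).Zg : ℝ) := by
    exact_mod_cast Nat.pos_of_ne_zero (CM_Zg_ne (p.F i₀))
  let ψ : ι → Fin (6 ^ (rad fg).primeFactors.card) × Ideal (𝓞 K) := fun i => (c i, (p.F i).a)
  let T : Finset (Fin (6 ^ (rad fg).primeFactors.card) × Ideal (𝓞 K)) := Finset.univ.image ψ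
  have hψT : ∀ i, ψ i ∈ T := fun i => Finset.mem_image_of_mem ψ (Finset.mem_univ i)
  have hfib : ∀ c₀ ∈ (Finset.univ : Finset (Fin (6 ^ (rad fg).primeFactors.card))),
      ((T.filter (fun t => t.1 = c₀)).card : ℝ) ≤ 2 + 36 * f / (p.Zb * (rad fg : ℕ)) := by
    intro c₀ _
    have hpre : ∀ t : ↥(T.filter (fun t => t.1 = c₀)), ∃ i, ψ i = t.1 := by
      intro t
      have h3 := (Finset.mem_filter.1 t.2).1
      obtain ⟨i, -, hi⟩ := Finset.mem_image.1 h3
      exact ⟨i, hi⟩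
    choose j hj using hpre
    have hcj : ∀ t, c (j t) = c₀ := by
      intro t
      have h3 := (Finset.mem_filter.1 t.2).2
      rw [← hj t] at h3
      exact h3
    have haj : ∀ t, (p.F (j t)).a = t.1.2 := by
      intro t
      rw [← hj t]
    have hd := directions Q hneg (ι := ↥(T.filter (fun t => t.1 = c₀))) (fun t => x (j t))
      (fun t => ((p.F i₀).Zg * (p.F (j t)).Zg : ℤ)) ((p.F i₀).Zg * rad fg)
      (Nat.mul_pos (Nat.pos_of_ne_zero (CM_Zg_ne (p.F i₀))) (NA_rad_pos fg))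
      ((p.F i₀).Zg * (128 * (κ : ℝ) ^ 2 * s ^ 2 / p.Zb)) (by positivity)
      (by
        intro t
        have := hxN (j t)
        push_cast
        exact this)
      (by
        intro t
        push_cast
        apply mul_le_mul_of_nonneg_left _ hZgR.le
        rw [le_div_iff₀ hZbR]
        have h3 := (p.E (j t)).tup.Z2
        rw [(p.F (j t)).hZ, p.hZb] at h3
        have h4 : ((p.Zb : ℝ) * ((p.F (j t)).Zg : ℝ)) ≤ 128 * (κ : ℝ) ^ 2 * s ^ 2 := by
          exact_mod_cast h3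
        linarith)
      (by
        intro t t'
        have h3 : ((p.F i₀).Zg : ℤ) ∣ Q.Y (x (j t) * Q.cj (x (j t'))) :=
          ray_dvd _ _ _ (p.F i₀) (p.F (j t)) (p.F (j t')) _ _ (hxs _) (hxs _)
        have h4 : ((rad fg : ℕ) : ℤ) ∣ Q.Y (x (j t) * Q.cj (x (j t'))) :=
          hc _ _ (by rw [hcj, hcj])
        push_cast
        apply IsCoprime.mul_dvd _ h3 h4
        rw [Nat.isCoprime_iff_coprime]
        have h5 := (p.F i₀).cZ
        exact Nat.Coprime.coprime_dvd_right ((NA_rad_dvd fg).trans hfgf) h5)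
      (by
        intro t t' htt hY
        apply htt
        have h3 := ray_eq _ _ _ (p.F i₀) (p.F (j t)) (p.F (j t')) _ _ (hxs _) (hxs _) hY
        rw [haj, haj] at h3
        apply Subtype.ext
        have h4 := (Finset.mem_filter.1 t.2).2
        have h5 := (Finset.mem_filter.1 t'.2).2
        exact Prod.ext (h4.trans h5.symm) h3)
    rw [Fintype.card_coe] at hd
    refine hd.trans ?_
    have hsq := NA_sqrt (p.E i₀) hneg
    have hDpos : (0 : ℝ) < -Q.D := by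
      have : ((Q.D : ℤ) : ℝ) < 0 := by exact_mod_cast hneg
      linarith
    have hd0 : 0 < √(-Q.D : ℝ) := Real.sqrt_pos.2 hDpos
    have hs1 : (1 : ℝ) ≤ s := by exact_mod_cast hs
    have hκ1 : (1 : ℝ) ≤ κ := by exact_mod_cast hκ
    have h6 : 8 * (((p.F i₀).Zg : ℝ) * (128 * (κ : ℝ) ^ 2 * s ^ 2 / p.Zb)) /
        (((p.F i₀).Zg * rad fg : ℕ) * √(-Q.D : ℝ)) =
        (1024 * (κ : ℝ) ^ 2 * s ^ 2 / √(-Q.D : ℝ)) / (p.Zb * (rad fg : ℕ)) := by
      push_cast
      field_simp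
      ring
    rw [h6]
    have h7 : 1024 * (κ : ℝ) ^ 2 * s ^ 2 / √(-Q.D : ℝ) ≤ 36 * f := by
      rw [div_le_iff₀ hd0]
      have h8 : (0 : ℝ) ≤ (κ : ℝ) ^ 2 * s ^ 2 := by positivity
      have h9 : (κ : ℝ) ^ 2 * s ^ 2 ≤ (κ : ℝ) ^ 2 * s ^ 3 := by
        have : (κ : ℝ) ^ 2 * s ^ 3 = (κ : ℝ) ^ 2 * s ^ 2 * s := by ring
        rw [this]
        exact le_mul_of_one_le_right h8 hs1
      nlinarith
    have h8 : (1024 * (κ : ℝ) ^ 2 * s ^ 2 / √(-Q.D : ℝ)) / (p.Zb * (rad fg : ℕ)) ≤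
        36 * f / (p.Zb * (rad fg : ℕ)) := by
      apply div_le_div_of_nonneg_right h7
      positivity
    linarith
  refine ⟨T.card, fun i => T.equivFin ⟨ψ i, hψT i⟩, ?_, ?_⟩
  · have h3 : T.card = ∑ c₀ : Fin (6 ^ (rad fg).primeFactors.card),
        (T.filter (fun t => t.1 = c₀)).card :=
      Finset.card_eq_sum_card_fiberwise (fun t _ => Finset.mem_coe.2 (Finset.mem_univ _))
    rw [h3]
    push_cast
    refine (Finset.sum_le_sum hfib).trans ?_
    rw [Finset.sum_const, Finset.card_univ, Fintype.card_fin, NA_rad_primeFactors, nsmul_eq_mul]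
    push_cast
    exact le_refl _
  · intro i j hij
    have h3 := T.equivFin.injective hij
    have h4 : ψ i = ψ j := congrArg Subtype.val h3
    exact congrArg Prod.snd h4

end Pool.Agent.helper28.LT
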