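import Pool.Agent.helper58.LT.CM

set_option autoImplicit false

/-!
# LT project (MP_16912e_nt), module NL: the number of elements `α` for one ideal
-/

namespace Pool.Agent.helper28.LT

open Finset NumberField Pool.Agent.helper3.FT Pool.Agent.helper47.RA

variable {K : Type} [Field K] [NumberField K] {Q : QF K} {κ s f : ℕ}

/-- NL (from UN): the number of `α` for one ideal -/
theorem Part.num_alpha (hneg : Q.D < 0) {ι : Type} (p : Part Q κ s f ι) :
    ∃ φ : ι → Fin 12, ∀ i j, (p.F i).a = (p.F j).a → φ i = φ j → (p.E i).α = (p.E j).α := by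
  classical
  let R : Finset (𝓞 K) := Polynomial.nthRootsFinset 12 (1 : 𝓞 K)
  have hR : R.card ≤ 12 := (Multiset.toFinset_card_le _).trans (Polynomial.card_nthRoots 12 1)
  let rep : ι → ι := fun i => (⟨i, rfl⟩ : ∃ j, (p.F j).a = (p.F i).a).choose
  have hrep : ∀ i, (p.F (rep i)).a = (p.F i).a := fun i =>
    (⟨i, rfl⟩ : ∃ j, (p.F j).a = (p.F i).a).choose_spec
  have hrep2 : ∀ i j, (p.F i).a = (p.F j).a → rep i = rep j := by
    intro i j h
    show (⟨i, rfl⟩ : ∃ l, (p.F l).a = (p.F i).a).choose =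
      (⟨j, rfl⟩ : ∃ l, (p.F l).a = (p.F j).a).choose
    congr 1
    funext l
    rw [h]
  have hz : ∀ i, ∃ z : 𝓞 K, z ∈ R ∧ (p.E i).α = (p.E (rep i)).α * z := by
    intro i
    have h1 : Ideal.span {(p.E (rep i)).α} = Ideal.span {(p.E i).α} := by
      rw [(p.F i).iα, (p.F (rep i)).iα, hrep i, p.hA, p.hA]
    obtain ⟨z, hz⟩ := Ideal.span_singleton_eq_span_singleton.1 h1
    refine ⟨z, ?_, hz.symm⟩
    rw [Polynomial.mem_nthRootsFinset (by norm_num)]
    exact unit_pow Q hneg z z.isUnit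
  choose z hzR hzα using hz
  refine ⟨fun i => Fin.castLE hR (R.equivFin ⟨z i, hzR i⟩), ?_⟩
  intro i j ha hφ
  have h1 : R.equivFin ⟨z i, hzR i⟩ = R.equivFin ⟨z j, hzR j⟩ := Fin.castLE_injective hR hφ
  have h2 : z i = z j := congrArg Subtype.val (R.equivFin.injective h1)
  rw [hzα i, hzα j, h2, hrep2 i j ha]

end Pool.Agent.helper28.LT
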