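import Pool.Agent.helper58.LT.UN
import Pool.Agent.helper96.FT.A4b

set_option autoImplicit false

/-!
# LT project (MP_16912e_nt), module CM: comparison of two tuples, classes of the ideals
-/

namespace Pool.Agent.helper28.LT

open Finset NumberField Pool.Agent.helper3.FT Pool.Agent.helper47.RA

variable {K : Type} [Field K] [NumberField K] {Q : QF K} {κ s f : ℕ}

theorem CM_Zg_ne {E : El Q κ s f} (F : Fac E) : F.Zg ≠ 0 := by
  intro h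
  have h5 := F.hZ
  rw [h] at h5
  exact E.tup.Z_ne (by simpa using h5)

theorem CM_Zb_ne {E : El Q κ s f} (F : Fac E) : F.Zb ≠ 0 := by
  intro h
  have h5 := F.hZ
  rw [h] at h5
  exact E.tup.Z_ne (by simpa using h5)

theorem CM_bar_ne {E : El Q κ s f} (F : Fac E) : Q.bar F.a ≠ ⊥ := by
  intro h
  have h1 := F.na
  rw [h, Ideal.mul_bot] at h1
  have h3 := Ideal.span_singleton_eq_bot.1 h1.symm
  have h4 : F.Zg = 0 := by exact_mod_cast h3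
  exact CM_Zg_ne F h4

theorem CM_α_ne (E : El Q κ s f) : E.α ≠ 0 := by
  intro h
  have h1 := E.nα
  rw [h, zero_mul] at h1
  have h2 : ((E.Z ^ 5 : ℤ) : 𝓞 K) = ((0 : ℤ) : 𝓞 K) := by
    push_cast
    exact h1.symm
  have h3 := QF.int_inj h2
  exact pow_ne_zero _ E.tup.Z_ne h3

theorem CM_β_ne (E : El Q κ s f) : E.β ≠ 0 := by
  intro h
  have h1 := E.nβ
  rw [h, zero_mul] at h1
  have h2 : ((E.Z ^ 2 * E.Λ : ℤ) : 𝓞 K) = ((0 : ℤ) : 𝓞 K) := by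
    push_cast
    exact h1.symm
  have h3 := QF.int_inj h2
  exact mul_ne_zero (pow_ne_zero _ E.tup.Z_ne) E.tup.Λ_ne h3

theorem CM_A_ne {E : El Q κ s f} (F : Fac E) : F.A ≠ ⊥ := by
  intro h
  have h1 := F.iα
  rw [h, Ideal.mul_bot] at h1
  exact CM_α_ne E (Ideal.span_singleton_eq_bot.1 h1)

/-- the class of the conjugate ideal is the inverse -/
theorem CM_principal {E₁ E₂ : El Q κ s f} (F₁ : Fac E₁) (F₂ : Fac E₂) (hcl : F₁.cl = F₂.cl) :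
    ∃ x : 𝓞 K, F₂.a * Q.bar F₁.a = Ideal.span {x} := by
  have hb := CM_bar_ne F₁
  have hbm : Q.bar F₁.a ∈ nonZeroDivisors (Ideal (𝓞 K)) := mem_nonZeroDivisors_of_ne_zero hb
  have h1 : F₁.cl * ClassGroup.mk0 ⟨Q.bar F₁.a, hbm⟩ = 1 := by
    unfold Fac.cl
    rw [← map_mul, ClassGroup.mk0_eq_one_iff]
    show (F₁.a * Q.bar F₁.a).IsPrincipal
    rw [F₁.na]
    exact ⟨⟨_, rfl⟩⟩
  rw [hcl] at h1
  unfold Fac.cl at h1
  rw [← map_mul, ClassGroup.mk0_eq_one_iff] at h1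
  have h2 : (F₂.a * Q.bar F₁.a).IsPrincipal := h1
  obtain ⟨x, hx⟩ := h2
  exact ⟨x, hx⟩

/-- CM1 (from UN) -/
theorem compare (hneg : Q.D < 0) (E₁ E₂ : El Q κ s f) (F₁ : Fac E₁) (F₂ : Fac E₂)
    (hZ : F₁.Zb = F₂.Zb) (hA : F₁.A = F₂.A) (hcl : F₁.cl = F₂.cl) :
    ∃ x : 𝓞 K, E₂.α * Q.cj E₁.α = (F₁.Zb : 𝓞 K) ^ 5 * x ^ 5 ∧
      Ideal.span {x} = F₂.a * Q.bar F₁.a ∧ x * Q.cj x = (F₁.Zg : 𝓞 K) * F₂.Zg := by
  obtain ⟨x₀, hx₀⟩ := CM_principal F₁ F₂ hcl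
  have h1 : Ideal.span {E₂.α * Q.cj E₁.α} = Ideal.span {(F₁.Zb : 𝓞 K) ^ 5 * x₀ ^ 5} := by
    rw [← Ideal.span_singleton_mul_span_singleton, ← Q.bar_span, F₁.iα, F₂.iα, Q.bar_mul,
      Q.bar_pow, ← Ideal.span_singleton_mul_span_singleton, ← F₁.nA, ← Ideal.span_singleton_pow,
      ← hx₀, hA]
    ring
  obtain ⟨z, hz⟩ := (Ideal.span_singleton_eq_span_singleton.1 h1).symm
  have hz12 := unit_pow Q hneg (z : 𝓞 K) z.isUnit
  have hspan : Ideal.span {((z : 𝓞 K) ^ 5) * x₀} = F₂.a * Q.bar F₁.a := by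
    rw [hx₀]
    rw [Ideal.span_singleton_mul_left_unit (z.isUnit.pow 5)]
  refine ⟨(z : 𝓞 K) ^ 5 * x₀, ?_, hspan, ?_⟩
  · rw [← hz]
    have h2 : ((z : 𝓞 K) ^ 5 * x₀) ^ 5 = x₀ ^ 5 * z := by
      calc ((z : 𝓞 K) ^ 5 * x₀) ^ 5 = ((z : 𝓞 K) ^ 12) ^ 2 * z * x₀ ^ 5 := by ring
        _ = x₀ ^ 5 * z := by rw [hz12]; ring
    rw [h2]
    ring
  · generalize (z : 𝓞 K) ^ 5 * x₀ = x at hspan
    obtain ⟨N, hN, hN2⟩ := Q.exists_norm x
    have h0 := UN_norm_nonneg Q hneg x N hN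
    have h3 : Ideal.span {x * Q.cj x} = Ideal.span {((F₁.Zg * F₂.Zg : ℕ) : 𝓞 K)} := by
      rw [← Ideal.span_singleton_mul_span_singleton, ← Q.bar_span, hspan, Q.bar_mul, Q.bar_bar,
        Nat.cast_mul, ← Ideal.span_singleton_mul_span_singleton, ← F₁.na, ← F₂.na]
      ring
    have h4 : x * Q.cj x = (N.natAbs : 𝓞 K) := by
      rw [hN]
      have h5 : N = (N.natAbs : ℤ) := (Int.natAbs_of_nonneg h0).symm
      rw [h5]
      push_cast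
      simp
    rw [h4] at h3
    have h6 := congrArg Ideal.absNorm h3
    rw [h96_norm_q Q, h96_norm_q Q] at h6
    have h7 : N.natAbs = F₁.Zg * F₂.Zg := Nat.pow_left_injective (n := 2) (by norm_num) h6
    rw [h4, h7]
    push_cast
    rfl

/-- CM2 -/
theorem cl_pow (E₁ E₂ : El Q κ s f) (F₁ : Fac E₁) (F₂ : Fac E₂) (hA : F₁.A = F₂.A) :
    F₁.cl ^ 5 = F₂.cl ^ 5 := by
  have hAm : F₁.A ∈ nonZeroDivisors (Ideal (𝓞 K)) := mem_nonZeroDivisors_of_ne_zero (CM_A_ne F₁)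
  have key : ∀ (E : El Q κ s f) (F : Fac E), F₁.A = F.A →
      F.cl ^ 5 * ClassGroup.mk0 ⟨F₁.A, hAm⟩ = 1 := by
    intro E F h
    unfold Fac.cl
    rw [← map_pow, ← map_mul, ClassGroup.mk0_eq_one_iff]
    show (F.a ^ 5 * F₁.A).IsPrincipal
    rw [h, ← F.iα]
    exact ⟨⟨_, rfl⟩⟩
  have h1 := key E₁ F₁ rfl
  have h2 := key E₂ F₂ hA
  exact mul_right_cancel (h1.trans h2.symm)

theorem CM_A_top (E : El Q κ s f) (F : Fac E) (hZ : F.Zb = 1) : F.A = ⊤ := by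
  have h1 := F.nA
  rw [hZ] at h1
  have h2 : F.A * Q.bar F.A = ⊤ := by
    rw [h1]
    simp
  have h3 : F.A * Q.bar F.A ≤ F.A := Ideal.mul_le_left
  rw [h2] at h3
  exact top_le_iff.1 h3

/-- CM3 -/
theorem cl_pow_one (E : El Q κ s f) (F : Fac E) (hZ : F.Zb = 1) : F.cl ^ 5 = 1 := by
  unfold Fac.cl
  rw [← map_pow, ClassGroup.mk0_eq_one_iff]
  show (F.a ^ 5).IsPrincipal
  have h1 := F.iα
  rw [CM_A_top E F hZ, Ideal.mul_top] at h1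
  rw [← h1]
  exact ⟨⟨_, rfl⟩⟩

end Pool.Agent.helper28.LT
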