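import Pool.Agent.helper58.LT.CM
import Pool.Agent.helper62.LT.TB

set_option autoImplicit false

/-!
# LT project (MP_16912e_nt), module CM4: the class of `a` is not trivial
-/

namespace Pool.Agent.helper28.LT

open Finset NumberField Pool.Agent.helper3.FT Pool.Agent.helper47.RA

variable {K : Type} [Field K] [NumberField K] {Q : QF K} {κ s f : ℕ}

/-- small norm implies rational -/
theorem CM_small (Q : QF K) (hneg : Q.D < 0) (x : 𝓞 K) (N : ℤ) (h : x * Q.cj x = N)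
    (hN : 4 * N < -Q.D) : Q.Y x = 0 := by
  by_contra h0
  have h1 := UN_Y_le Q x N h
  have h2 : 1 ≤ Q.Y x ^ 2 := by
    have := sq_pos_of_ne_zero h0
    omega
  nlinarith

/-- CM4 (from TB4) -/
theorem cl_ne_one (hneg : Q.D < 0) (hf : 1 ≤ f) (E : El Q κ s f) (F : Fac E) (hZ : F.Zb = 1)
    (hD : 512 * (κ : ℤ) ^ 2 * s ^ 2 < -Q.D) : F.cl ≠ 1 := by
  intro hcl
  unfold Fac.cl at hcl
  rw [ClassGroup.mk0_eq_one_iff] at hcl
  obtain ⟨x, hx⟩ := (hcl : F.a.IsPrincipal)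
  have hx' : F.a = Ideal.span {x} := hx
  have hZg : E.Z = F.Zg := by
    rw [F.hZ, hZ]
    simp
  have hκ := E.tup.κ_pos
  have hs := E.tup.s_pos
  -- the norm of `x`
  obtain ⟨N, hN, hN2⟩ := Q.exists_norm x
  have h0 := UN_norm_nonneg Q hneg x N hN
  have h3 : Ideal.span {x * Q.cj x} = Ideal.span {(F.Zg : 𝓞 K)} := by
    rw [← Ideal.span_singleton_mul_span_singleton, ← Q.bar_span, ← hx', F.na]
  have h4 : x * Q.cj x = (N.natAbs : 𝓞 K) := by
    rw [hN]
    have h5 : N = (N.natAbs : ℤ) := (Int.natAbs_of_nonneg h0).symm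
    rw [h5]
    push_cast
    simp
  rw [h4] at h3
  have h6 := congrArg Ideal.absNorm h3
  rw [h96_norm_q Q, h96_norm_q Q] at h6
  have h7 : N.natAbs = F.Zg := Nat.pow_left_injective (n := 2) (by norm_num) h6
  have h8 : N = E.Z := by
    rw [hZg, ← h7]
    exact (Int.natAbs_of_nonneg h0).symm
  have h9 : Q.Y x = 0 := by
    apply CM_small Q hneg x N hN
    have := E.tup.Z2
    rw [h8]
    nlinarith
  obtain ⟨c, hc⟩ := (Q.Y_eq_zero_iff x).1 h9
  -- the element `α`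
  have h10 : Ideal.span {E.α} = Ideal.span {x ^ 5} := by
    rw [F.iα, CM_A_top E F hZ, Ideal.mul_top, hx', Ideal.span_singleton_pow]
  obtain ⟨z, hz⟩ := (Ideal.span_singleton_eq_span_singleton.1 h10).symm
  have h11 := UN_unit_norm Q hneg (z : 𝓞 K) z.isUnit
  have h12 : Q.Y (z : 𝓞 K) = 0 := by
    apply CM_small Q hneg (z : 𝓞 K) 1 (by rw [h11]; simp)
    have h13 : (1 : ℤ) ≤ (κ : ℤ) ^ 2 * s ^ 2 := by
      have : (1 : ℤ) ≤ κ := by exact_mod_cast hκ
      have : (1 : ℤ) ≤ s := by exact_mod_cast hs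
      have h14 : (1 : ℤ) ≤ (κ : ℤ) ^ 2 := by nlinarith
      have h15 : (1 : ℤ) ≤ (s : ℤ) ^ 2 := by nlinarith
      nlinarith
    nlinarith
  obtain ⟨d, hd⟩ := (Q.Y_eq_zero_iff (z : 𝓞 K)).1 h12
  have h16 : Q.Y E.α = 0 := by
    rw [← hz, hc, hd]
    have h17 : ((c : 𝓞 K) ^ 5 * (d : 𝓞 K)) = ((c ^ 5 * d : ℤ) : 𝓞 K) := by push_cast; ring
    rw [h17, Q.Y_int]
  rw [E.Yα] at h16
  have hy : E.y = 0 := by
    rcases mul_eq_zero.1 h16 with h | h
    · have : f = 0 := by exact_mod_cast h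
      omega
    · exact h
  have h18 := E.hy
  rw [hy, mul_zero] at h18
  exact E.tup.y_ne h18.symm

end Pool.Agent.helper28.LT
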