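import Pool.Agent.helper58.LT.CM

set_option autoImplicit false

/-!
# LT project (MP_16912e_nt), module RY: parallel elements
-/

namespace Pool.Agent.helper28.LT

open Finset NumberField Pool.Agent.helper3.FT Pool.Agent.helper47.RA

variable {K : Type} [Field K] [NumberField K] {Q : QF K} {κ s f : ℕ}

theorem RY_span {E₁ E₂ E₃ : El Q κ s f} (F₁ : Fac E₁) (F₂ : Fac E₂) (F₃ : Fac E₃) (x₂ x₃ : 𝓞 K)
    (h2 : Ideal.span {x₂} = F₂.a * Q.bar F₁.a) (h3 : Ideal.span {x₃} = F₃.a * Q.bar F₁.a) :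
    Ideal.span {x₂ * Q.cj x₃} = Ideal.span {(F₁.Zg : 𝓞 K)} * (F₂.a * Q.bar F₃.a) := by
  rw [← Ideal.span_singleton_mul_span_singleton, ← Q.bar_span, h2, h3, Q.bar_mul, Q.bar_bar,
    ← F₁.na]
  ring

/-- RY1 -/
theorem ray_dvd (E₁ E₂ E₃ : El Q κ s f) (F₁ : Fac E₁) (F₂ : Fac E₂) (F₃ : Fac E₃) (x₂ x₃ : 𝓞 K)
    (h2 : Ideal.span {x₂} = F₂.a * Q.bar F₁.a) (h3 : Ideal.span {x₃} = F₃.a * Q.bar F₁.a) :
    (F₁.Zg : ℤ) ∣ Q.Y (x₂ * Q.cj x₃) := by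
  apply Q.h96_dvd_Y
  · exact_mod_cast CM_Zg_ne F₁
  · have h := RY_span F₁ F₂ F₃ x₂ x₃ h2 h3
    have h4 : Ideal.span {(F₁.Zg : 𝓞 K)} ∣ Ideal.span {x₂ * Q.cj x₃} := ⟨_, h⟩
    rw [Ideal.dvd_span_singleton, Ideal.mem_span_singleton] at h4
    simpa using h4

/-- RY2 -/
theorem ray_eq (E₁ E₂ E₃ : El Q κ s f) (F₁ : Fac E₁) (F₂ : Fac E₂) (F₃ : Fac E₃) (x₂ x₃ : 𝓞 K)
    (h2 : Ideal.span {x₂} = F₂.a * Q.bar F₁.a) (h3 : Ideal.span {x₃} = F₃.a * Q.bar F₁.a)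
    (hY : Q.Y (x₂ * Q.cj x₃) = 0) : F₂.a = F₃.a := by
  obtain ⟨c, hc⟩ := (Q.Y_eq_zero_iff _).1 hY
  have h := RY_span F₁ F₂ F₃ x₂ x₃ h2 h3
  have h' : Ideal.span {x₂ * Q.cj x₃} = Ideal.span {(F₁.Zg : 𝓞 K)} * (Q.bar F₂.a * F₃.a) := by
    have h4 := congrArg Q.bar h
    rw [Q.bar_span, Q.bar_mul, Q.bar_mul, Q.bar_bar, h96_bar_q] at h4
    rw [← h4, hc, Q.cj_int]
  rw [h] at h'
  have hne : Ideal.span {(F₁.Zg : 𝓞 K)} ≠ 0 := by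
    intro h0
    have h5 := Ideal.span_singleton_eq_bot.1 h0
    exact CM_Zg_ne F₁ (by exact_mod_cast h5)
  have h6 := mul_left_cancel₀ hne h'
  have c2 : IsCoprime F₂.a (Q.bar F₂.a) := by
    rw [Ideal.isCoprime_iff_sup_eq]
    exact F₂.ca
  have c3 : IsCoprime F₃.a (Q.bar F₃.a) := by
    rw [Ideal.isCoprime_iff_sup_eq]
    exact F₃.ca
  apply dvd_antisymm
  · apply c2.dvd_of_dvd_mul_left
    exact ⟨_, h6.symm⟩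
  · apply c3.dvd_of_dvd_mul_right
    refine ⟨Q.bar F₂.a, ?_⟩
    rw [h6, mul_comm]

/-- RY3 -/
theorem fg_dvd (E₁ E₂ : El Q κ s f) (F₁ : Fac E₁) (x : 𝓞 K) (fg : ℕ) (hfg : fg ∣ f)
    (hc : Nat.Coprime fg F₁.Zb)
    (hx : E₂.α * Q.cj E₁.α = (F₁.Zb : 𝓞 K) ^ 5 * x ^ 5) : (fg : ℤ) ∣ Q.Y (x ^ 5) := by
  have h1 : (fg : ℤ) ∣ Q.Y E₂.α := by
    rw [E₂.Yα]
    exact dvd_mul_of_dvd_left (by exact_mod_cast hfg) _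
  have h2 : (fg : ℤ) ∣ Q.Y (Q.cj E₁.α) := by
    apply Q.h96_Y_cj
    rw [E₁.Yα]
    exact dvd_mul_of_dvd_left (by exact_mod_cast hfg) _
  have h3 := Q.h96_Y_mul (fg : ℤ) h1 h2
  rw [hx] at h3
  have h4 : ((F₁.Zb : 𝓞 K) ^ 5 * x ^ 5) = ((F₁.Zb ^ 5 : ℤ) : 𝓞 K) * x ^ 5 := by push_cast; ring
  rw [h4, Q.Y_int_mul] at h3
  apply IsCoprime.dvd_of_dvd_mul_left _ h3
  apply IsCoprime.pow_right
  exact_mod_cast Nat.isCoprime_iff_coprime.2 hc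

end Pool.Agent.helper28.LT
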