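import Pool.Agent.helper28.LT.Base
import Pool.Agent.helper61.FT.A1

set_option autoImplicit false

/-!
# LT project (MP_16912e_nt), module UN: units of an imaginary quadratic field are 12th roots of unity
-/

namespace Pool.Agent.helper28.LT

open Finset NumberField Pool.Agent.helper3.FT Pool.Agent.helper47.RA

variable {K : Type} [Field K] [NumberField K]

/-- norm, trace and coefficient of an element: `4 N = S ^ 2 - D Y ^ 2` -/
theorem UN_data (Q : QF K) (a : 𝓞 K) : ∃ N S : ℤ, a * Q.cj a = N ∧ a + Q.cj a = S ∧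
    4 * N = S ^ 2 - Q.D * Q.Y a ^ 2 := by
  obtain ⟨x, hx⟩ := Q.exists_re a
  generalize Q.Y a = y at hx ⊢
  refine ⟨x ^ 2 + Q.t * x * y - Q.k * y ^ 2, 2 * x + Q.t * y, ?_, ?_, ?_⟩
  · rw [hx, Q.norm_form]
  · rw [hx, Q.cj_form]
    push_cast
    ring
  · have h1 := Q.t_sq
    have h2 := Q.hk
    rw [h2]
    linear_combination (-(y ^ 2)) * h1

/-- norms are non-negative -/
theorem UN_norm_nonneg (Q : QF K) (hneg : Q.D < 0) (a : 𝓞 K) (N : ℤ) (h : a * Q.cj a = N) :
    0 ≤ N := by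
  obtain ⟨N', S, h1, -, h3⟩ := UN_data Q a
  have h4 : N = N' := QF.int_inj (h.symm.trans h1)
  subst h4
  nlinarith [sq_nonneg S, sq_nonneg (Q.Y a)]

/-- `-D Y ^ 2 ≤ 4 N` -/
theorem UN_Y_le (Q : QF K) (a : 𝓞 K) (N : ℤ) (h : a * Q.cj a = N) :
    -Q.D * Q.Y a ^ 2 ≤ 4 * N := by
  obtain ⟨N', S, h1, -, h3⟩ := UN_data Q a
  have h4 : N = N' := QF.int_inj (h.symm.trans h1)
  subst h4
  nlinarith [sq_nonneg S]

/-- the norm of a unit is one -/
theorem UN_unit_norm (Q : QF K) (hneg : Q.D < 0) (z : 𝓞 K) (hz : IsUnit z) : z * Q.cj z = 1 := by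
  obtain ⟨N, hN, hN2⟩ := Q.exists_norm z
  rw [Ideal.span_singleton_eq_top.2 hz, Ideal.absNorm_top] at hN2
  have h0 := UN_norm_nonneg Q hneg z N hN
  rw [abs_of_nonneg h0] at hN2
  rw [hN, ← hN2]
  simp

/-- UN -/
theorem unit_pow (Q : QF K) (hneg : Q.D < 0) (z : 𝓞 K) (hz : IsUnit z) : z ^ 12 = 1 := by
  have h1 := UN_unit_norm Q hneg z hz
  obtain ⟨N, S, h2, h3, h4⟩ := UN_data Q z
  have hN : N = 1 := by
    apply QF.int_inj (K := K)
    rw [← h2, h1]
    simp
  subst hN
  have hS : S ^ 2 ≤ 4 := by nlinarith [sq_nonneg (Q.Y z)]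
  have hS1 : -2 ≤ S := by nlinarith
  have hS2 : S ≤ 2 := by nlinarith
  have hq : z ^ 2 = S * z - 1 := by
    rw [← h3]
    linear_combination -h1
  interval_cases S
  · have h5 : (z + 1) ^ 2 = 0 := by
      push_cast at hq
      linear_combination hq
    have h6 : z = -1 := by
      have h7 := pow_eq_zero_iff (two_ne_zero) |>.1 h5
      linear_combination h7
    rw [h6]
    norm_num
  · have h5 : z ^ 3 = 1 := by
      push_cast at hq
      linear_combination (z - 1) * hq
    calc z ^ 12 = (z ^ 3) ^ 4 := by ring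
      _ = 1 := by rw [h5, one_pow]
  · have h5 : z ^ 2 = -1 := by
      push_cast at hq
      linear_combination hq
    calc z ^ 12 = (z ^ 2) ^ 6 := by ring
      _ = 1 := by rw [h5]; norm_num
  · have h5 : z ^ 3 = -1 := by
      push_cast at hq
      linear_combination (z + 1) * hq
    calc z ^ 12 = (z ^ 3) ^ 4 := by ring
      _ = 1 := by rw [h5]; norm_num
  · have h5 : (z - 1) ^ 2 = 0 := by
      push_cast at hq
      linear_combination hq
    have h6 : z = 1 := by
      have h7 := pow_eq_zero_iff (two_ne_zero) |>.1 h5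
      linear_combination h7
    rw [h6]
    norm_num

end Pool.Agent.helper28.LT
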